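import Mathlib

/-!
# MP_8ac8bf_al: invariant symmetric bilinear forms of tridiagonal pairs are not unique

Over every field `K` which is not algebraically closed (for instance `ℚ` or `ℝ`) there is a
tridiagonal pair `A, A*` on a finite-dimensional vector space with two nonzero symmetric
`(A, A*)`-invariant bilinear forms which are not scalar multiples of each other.
-/

set_option autoImplicit false

namespace Pool.Agent.Results.MP_8ac8bf_al.NonUniqueForm

open Module Polynomial

universe u v

section Defs

variable {K : Type u} [Field K] {V : Type v} [AddCommGroup V] [Module K V]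

/-- `f` is diagonalizable: the eigenspaces of `f` span the space. -/
def Diagonalizable (f : End K V) : Prop := ⨆ μ : K, f.eigenspace μ = ⊤

/-- There is an ordering `V_0, …, V_d` of the eigenspaces `V_i = ker (f - θ_i)` of `f` such that
`g V_i ⊆ V_{i-1} + V_i + V_{i+1}` for all `i` (with `V_{-1} = V_{d+1} = 0`). -/
def ActsTridiagonally (f g : End K V) : Prop :=
  ∃ (d : ℕ) (θ : Fin (d + 1) → K), Function.Injective θ ∧
    (∀ μ : K, f.HasEigenvalue μ ↔ ∃ i, θ i = μ) ∧
    ∀ i : Fin (d + 1), (f.eigenspace (θ i)).map g ≤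
      ⨆ j : {j : Fin (d + 1) // (i : ℕ) ≤ (j : ℕ) + 1 ∧ (j : ℕ) ≤ (i : ℕ) + 1},
        f.eigenspace (θ j)

/-- `A, As` is a tridiagonal pair on `V`. -/
structure IsTridiagonalPair (A As : End K V) : Prop where
  finiteDimensional : FiniteDimensional K V
  nontrivial : Nontrivial V
  diagonalizable : Diagonalizable A
  diagonalizable' : Diagonalizable As
  tridiagonal : ActsTridiagonally A As
  tridiagonal' : ActsTridiagonally As A
  irreducible : ∀ W : Submodule K V, W.map A ≤ W → W.map As ≤ W → W = ⊥ ∨ W = ⊤

/-- `B` is a symmetric `(A, As)`-invariant bilinear form. -/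
def IsSymmInvariant (A As : End K V) (B : LinearMap.BilinForm K V) : Prop :=
  (∀ u v, B u v = B v u) ∧ (∀ u v, B (A u) v = B u (A v)) ∧ ∀ u v, B (As u) v = B u (As v)

end Defs

section Idempotents

variable {K : Type u} [Field K] {V : Type v} [AddCommGroup V] [Module K V]

theorem sup_eigenspace_of_idem {f : End K V} (hf : f * f = f) :
    f.eigenspace 0 ⊔ f.eigenspace 1 = ⊤ := by
  rw [eq_top_iff]
  intro x _
  have hx : f (f x) = f x := by
    have := LinearMap.congr_fun hf x
    simpa using this
  have h1 : x - f x ∈ f.eigenspace 0 := by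
    rw [End.mem_eigenspace_iff]
    simp [hx]
  have h2 : f x ∈ f.eigenspace 1 := by
    rw [End.mem_eigenspace_iff]
    simp [hx]
  have h3 : x = (x - f x) + f x := by abel
  rw [h3]
  exact Submodule.add_mem_sup h1 h2

theorem diagonalizable_of_idem {f : End K V} (hf : f * f = f) : Diagonalizable f := by
  unfold Diagonalizable
  rw [eq_top_iff, ← sup_eigenspace_of_idem hf]
  exact sup_le (le_iSup (fun μ : K => f.eigenspace μ) 0) (le_iSup (fun μ : K => f.eigenspace μ) 1)

theorem tri_of_idem {f : End K V} (g : End K V) (hf : f * f = f)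
    (h0 : f.HasEigenvalue 0) (h1 : f.HasEigenvalue 1) : ActsTridiagonally f g := by
  refine ⟨1, ![0, 1], ?_, ?_, ?_⟩
  · intro i j h
    fin_cases i <;> fin_cases j <;> simp_all
  · intro μ
    constructor
    · intro hμ
      obtain ⟨x, hx⟩ := hμ.exists_hasEigenvector
      have hx1 : f x = μ • x := hx.apply_eq_smul
      have hx2 : f (f x) = f x := by
        have := LinearMap.congr_fun hf x
        simpa using this
      rw [hx1, map_smul, hx1, smul_smul, ← sub_eq_zero, ← sub_smul, smul_eq_zero] at hx2
      rcases hx2 with h | h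
      · have h' : μ * (μ - 1) = 0 := by rw [mul_sub, mul_one]; exact h
        rcases mul_eq_zero.mp h' with h'' | h''
        · exact ⟨0, by simp [h'']⟩
        · exact ⟨1, by simp [sub_eq_zero.mp h'']⟩
      · exact absurd h hx.2
    · rintro ⟨i, rfl⟩
      fin_cases i
      · simpa using h0
      · simpa using h1
  · intro i
    refine le_top.trans ?_
    rw [← sup_eigenspace_of_idem hf]
    refine sup_le ?_ ?_
    · have h : (i : ℕ) ≤ ((0 : Fin 2) : ℕ) + 1 ∧ ((0 : Fin 2) : ℕ) ≤ (i : ℕ) + 1 := by
        constructor
        · have := i.2; simp only [Fin.val_zero]; omega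
        · simp
      exact le_iSup (fun j : {j : Fin 2 // (i : ℕ) ≤ (j : ℕ) + 1 ∧ (j : ℕ) ≤ (i : ℕ) + 1} =>
        f.eigenspace ((![0, 1] : Fin 2 → K) j)) ⟨0, h⟩
    · have h : (i : ℕ) ≤ ((1 : Fin 2) : ℕ) + 1 ∧ ((1 : Fin 2) : ℕ) ≤ (i : ℕ) + 1 := by
        constructor
        · have := i.2; simp only [Fin.val_one]; omega
        · simp
      exact le_iSup (fun j : {j : Fin 2 // (i : ℕ) ≤ (j : ℕ) + 1 ∧ (j : ℕ) ≤ (i : ℕ) + 1} =>
        f.eigenspace ((![0, 1] : Fin 2 → K) j)) ⟨1, h⟩

end Idempotents

section Construction

variable (K : Type u) [Field K] (L : Type u) [Field L] [Algebra K L]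

/-- The projection of `L × L` onto the first coordinate. -/
def pA : End K (L × L) := (LinearMap.inl K L L).comp (LinearMap.fst K L L)

/-- The idempotent with matrix `[[a, 1], [a (1 - a), 1 - a]]`. -/
def pB (a : L) : End K (L × L) :=
  ((LinearMap.mulLeft K a).comp (LinearMap.fst K L L) + LinearMap.snd K L L).prod
    ((LinearMap.mulLeft K (a * (1 - a))).comp (LinearMap.fst K L L) +
      (LinearMap.mulLeft K (1 - a)).comp (LinearMap.snd K L L))

/-- The bilinear form `λ (a (1 - a) x₁ y₁ + x₂ y₂)`. -/
def form (a : L) (lam : L →ₗ[K] K) : LinearMap.BilinForm K (L × L) :=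
  LinearMap.mk₂ K (fun x y => lam (a * (1 - a) * (x.1 * y.1) + x.2 * y.2))
    (by intro x x' y; rw [← map_add]; congr 1; simp only [Prod.fst_add, Prod.snd_add]; ring)
    (by intro c x y; show lam _ = c • lam _; rw [← map_smul]; congr 1
        rw [Prod.smul_fst, Prod.smul_snd, Algebra.smul_def, Algebra.smul_def,
          Algebra.smul_def]; ring)
    (by intro x y y'; rw [← map_add]; congr 1; simp only [Prod.fst_add, Prod.snd_add]; ring)
    (by intro c x y; show lam _ = c • lam _; rw [← map_smul]; congr 1
        rw [Prod.smul_fst, Prod.smul_snd, Algebra.smul_def, Algebra.smul_def,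
          Algebra.smul_def]; ring)

variable {K L}

@[simp] theorem pA_apply (x : L × L) : pA K L x = (x.1, 0) := rfl

@[simp] theorem pB_apply (a : L) (x : L × L) :
    pB K L a x = (a * x.1 + x.2, a * (1 - a) * x.1 + (1 - a) * x.2) := rfl

@[simp] theorem form_apply (a : L) (lam : L →ₗ[K] K) (x y : L × L) :
    form K L a lam x y = lam (a * (1 - a) * (x.1 * y.1) + x.2 * y.2) := rfl

theorem pA_idem : pA K L * pA K L = pA K L := by
  ext x <;> simp

theorem pB_idem (a : L) : pB K L a * pB K L a = pB K L a := by
  apply LinearMap.ext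
  rintro ⟨x, y⟩
  simp only [Module.End.mul_apply, pB_apply, Prod.mk.injEq]
  constructor <;> ring

theorem form_inv (a : L) (lam : L →ₗ[K] K) :
    IsSymmInvariant (pA K L) (pB K L a) (form K L a lam) := by
  refine ⟨?_, ?_, ?_⟩
  · intro u v
    simp only [form_apply]
    congr 1; ring
  · intro u v
    simp only [form_apply, pA_apply]
    congr 1; ring
  · intro u v
    simp only [form_apply, pB_apply]
    congr 1; ring

theorem isTridiagonalPair [FiniteDimensional K L] {a : L} (ha : Algebra.adjoin K {a} = ⊤)
    (h0 : a ≠ 0) (h1 : a ≠ 1) : IsTridiagonalPair (pA K L) (pB K L a) where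
  finiteDimensional := inferInstance
  nontrivial := inferInstance
  diagonalizable := diagonalizable_of_idem pA_idem
  diagonalizable' := diagonalizable_of_idem (pB_idem a)
  tridiagonal := by
    apply tri_of_idem _ pA_idem
    · apply End.hasEigenvalue_of_hasEigenvector (x := ((0 : L), (1 : L)))
      refine ⟨?_, ?_⟩
      · rw [End.mem_eigenspace_iff]; simp
      · simp
    · apply End.hasEigenvalue_of_hasEigenvector (x := ((1 : L), (0 : L)))
      refine ⟨?_, ?_⟩
      · rw [End.mem_eigenspace_iff]; simp
      · simp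
  tridiagonal' := by
    apply tri_of_idem _ (pB_idem a)
    · apply End.hasEigenvalue_of_hasEigenvector (x := ((1 : L), -a))
      refine ⟨?_, ?_⟩
      · rw [End.mem_eigenspace_iff]
        simp only [pB_apply, zero_smul]
        ext <;> simp <;> ring
      · simp
    · apply End.hasEigenvalue_of_hasEigenvector (x := ((1 : L), 1 - a))
      refine ⟨?_, ?_⟩
      · rw [End.mem_eigenspace_iff]
        simp only [pB_apply, one_smul]
        ext <;> simp <;> ring
      · simp
  irreducible := by
    intro W hA hB
    have h10 : (1 : L) - a ≠ 0 := sub_ne_zero.mpr (Ne.symm h1)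
    -- the first and second coordinates of `W`
    have hA' : ∀ x ∈ W, pA K L x ∈ W := fun x hx => hA (Submodule.mem_map_of_mem hx)
    have hB' : ∀ x ∈ W, pB K L a x ∈ W := fun x hx => hB (Submodule.mem_map_of_mem hx)
    have hA2 : ∀ x ∈ W, ((0 : L), x.2) ∈ W := by
      intro x hx
      have h := W.sub_mem hx (hA' x hx)
      have e : x - pA K L x = ((0 : L), x.2) := by ext <;> simp
      rwa [e] at h
    -- `W₁` is stable under multiplication by `a`
    have hW1a : ∀ x : L, (x, (0 : L)) ∈ W → (a * x, (0 : L)) ∈ W := by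
      intro x hx
      have h := hA' _ (hB' _ hx)
      simpa using h
    have hW1 : ∀ (b : L) (x : L), (x, (0 : L)) ∈ W → (b * x, (0 : L)) ∈ W := by
      intro b x hx
      have hb : b ∈ Algebra.adjoin K {a} := by rw [ha]; trivial
      induction hb using Algebra.adjoin_induction generalizing x with
      | mem y hy =>
        rw [Set.mem_singleton_iff] at hy
        subst hy
        exact hW1a x hx
      | algebraMap r =>
        have h := W.smul_mem r hx
        have e : r • (x, (0 : L)) = (algebraMap K L r * x, (0 : L)) := by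
          ext <;> simp [Algebra.smul_def]
        rwa [e] at h
      | add y z _ _ hy hz =>
        have h := W.add_mem (hy x hx) (hz x hx)
        have e : (y * x, (0 : L)) + (z * x, (0 : L)) = ((y + z) * x, (0 : L)) := by
          ext <;> simp; ring
        rwa [e] at h
      | mul y z _ _ hy hz =>
        have h := hy _ (hz x hx)
        rwa [← mul_assoc] at h
    by_cases hW : W = ⊥
    · exact Or.inl hW
    right
    obtain ⟨x, hx, hx0⟩ := W.ne_bot_iff.mp hW
    -- some nonzero vector `(y, 0)` lies in `W`
    obtain ⟨y, hy, hy0⟩ : ∃ y : L, (y, (0 : L)) ∈ W ∧ y ≠ 0 := by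
      by_cases h : x.1 = 0
      · have h2 : x.2 ≠ 0 := by
          intro h2
          exact hx0 (Prod.ext h h2)
        refine ⟨x.2, ?_, h2⟩
        have h3 := hA' _ (hB' _ (hA2 x hx))
        simpa using h3
      · exact ⟨x.1, by simpa using hA' x hx, h⟩
    have hall1 : ∀ z : L, (z, (0 : L)) ∈ W := by
      intro z
      have h := hW1 (z / y) y hy
      rwa [div_mul_cancel₀ z hy0] at h
    have hall2 : ∀ z : L, ((0 : L), z) ∈ W := by
      intro z
      have h := hA2 _ (hB' _ (hall1 (z / (a * (1 - a)))))
      have hne : a * (1 - a) ≠ 0 := mul_ne_zero h0 h10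
      have e : a * (1 - a) * (z / (a * (1 - a))) = z := mul_div_cancel₀ z hne
      simpa [e] using h
    rw [eq_top_iff]
    rintro ⟨z, w⟩ _
    have h := W.add_mem (hall1 z) (hall2 w)
    simpa using h

end Construction

/-- **Uniqueness up to scalars fails over every field which is not algebraically closed.** For every
field `K` which is not algebraically closed there is a tridiagonal pair `A, A*` on a vector space
`V` over `K` of finite positive dimension with two nonzero symmetric `(A, A*)`-invariant bilinear
forms `B`, `C` such that `C` is not a scalar multiple of `B`. -/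
theorem result (K : Type u) [Field K] (hK : ¬ IsAlgClosed K) :
    ∃ (V : Type u) (_ : AddCommGroup V) (_ : Module K V) (A As : End K V),
      IsTridiagonalPair A As ∧
      ∃ B C : LinearMap.BilinForm K V, IsSymmInvariant A As B ∧ IsSymmInvariant A As C ∧
        B ≠ 0 ∧ C ≠ 0 ∧ ∀ c : K, C ≠ c • B := by
  obtain ⟨p, hm, hirr, hroot⟩ : ∃ p : K[X], p.Monic ∧ Irreducible p ∧ ∀ x, p.eval x ≠ 0 := by
    by_contra hcon
    push Not at hcon
    exact hK (IsAlgClosed.of_exists_root K fun p hp hirr => hcon p hp hirr)
  haveI : Fact (Irreducible p) := ⟨hirr⟩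
  have hp0 : p ≠ 0 := hirr.ne_zero
  let L := AdjoinRoot p
  let a : L := AdjoinRoot.root p
  haveI : FiniteDimensional K L := (AdjoinRoot.powerBasis hp0).finite
  have haK : ∀ c : K, a ≠ algebraMap K L c := by
    intro c hc
    apply hroot c
    have h1 : aeval a p = 0 := by
      rw [AdjoinRoot.aeval_eq, AdjoinRoot.mk_self]
    rw [hc, aeval_algebraMap_apply, ← map_zero (algebraMap K L)] at h1
    have := (algebraMap K L).injective h1
    simpa using this
  have h0 : a ≠ 0 := by
    have := haK 0
    rwa [map_zero] at this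
  have h1 : a ≠ 1 := by
    have := haK 1
    rwa [map_one] at this
  have htop : Algebra.adjoin K {a} = ⊤ := AdjoinRoot.adjoinRoot_eq_top
  have hdeg : 2 ≤ p.natDegree := by
    by_contra hlt
    have h2 : p.natDegree ≤ 1 := by omega
    have h3 : 0 < p.natDegree := hirr.natDegree_pos
    have h4 : p.degree = 1 := by
      rw [degree_eq_natDegree hp0]
      have : p.natDegree = 1 := by omega
      rw [this]; rfl
    obtain ⟨x, hx⟩ := exists_root_of_degree_eq_one h4
    exact hroot x hx
  let pb := AdjoinRoot.powerBasis hp0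
  have hdim : pb.dim = p.natDegree := AdjoinRoot.powerBasis_dim hp0
  let i0 : Fin pb.dim := ⟨0, by omega⟩
  let i1 : Fin pb.dim := ⟨1, by omega⟩
  have e0 : pb.basis i0 = 1 := by
    rw [pb.basis_eq_pow]; simp [i0]
  have e1 : pb.basis i1 = a := by
    rw [pb.basis_eq_pow]
    simp [i1, pb, a]
  let lam : L →ₗ[K] K := pb.basis.coord i0
  let mu : L →ₗ[K] K := pb.basis.coord i1
  have hne : i0 ≠ i1 := by
    intro h
    have := congrArg Fin.val h
    simp [i0, i1] at this
  have l1 : lam 1 = 1 := by
    rw [← e0]
    show pb.basis.coord i0 (pb.basis i0) = 1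
    rw [Basis.coord_apply, Basis.repr_self, Finsupp.single_apply, if_pos rfl]
  have la : lam a = 0 := by
    rw [← e1]
    show pb.basis.coord i0 (pb.basis i1) = 0
    rw [Basis.coord_apply, Basis.repr_self, Finsupp.single_apply, if_neg hne.symm]
  have m1 : mu 1 = 0 := by
    rw [← e0]
    show pb.basis.coord i1 (pb.basis i0) = 0
    rw [Basis.coord_apply, Basis.repr_self, Finsupp.single_apply, if_neg hne]
  have ma : mu a = 1 := by
    rw [← e1]
    show pb.basis.coord i1 (pb.basis i1) = 1
    rw [Basis.coord_apply, Basis.repr_self, Finsupp.single_apply, if_pos rfl]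
  refine ⟨L × L, inferInstance, inferInstance, pA K L, pB K L a,
    isTridiagonalPair htop h0 h1, form K L a lam, form K L a mu, form_inv a lam, form_inv a mu,
    ?_, ?_, ?_⟩
  · intro h
    have h2 := LinearMap.congr_fun (LinearMap.congr_fun h ((0 : L), (1 : L))) ((0 : L), (1 : L))
    simp [l1] at h2
  · intro h
    have h2 := LinearMap.congr_fun (LinearMap.congr_fun h ((0 : L), a)) ((0 : L), (1 : L))
    simp [ma] at h2
  · intro c h
    have h2 := LinearMap.congr_fun (LinearMap.congr_fun h ((0 : L), a)) ((0 : L), (1 : L))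
    simp [ma, la] at h2

end Pool.Agent.Results.MP_8ac8bf_al.NonUniqueForm
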